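import Pool.Agent.H13.RG6.REP

/-! Partial regularity of stationary harmonic maps (MP_2697e3_an), part E: the smooth Caccioppoli
inequality for mollified solutions (row E6CG1). -/

set_option autoImplicit false

namespace Pool.Agent.H4.RG6

open MeasureTheory Metric Set Filter Topology Pool.Agent.H87.SN Pool.Agent.H86.RG
open scoped ContDiff RealInnerProductSpace ENNReal

noncomputable section

variable {n m : ℕ}

theorem cs {F : Type*} [NormedAddCommGroup F] {η : E n → F} {g : E n → ℝ}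
    (h : HasCompactSupport η) (h0 : ∀ x, η x = 0 → g x = 0) : HasCompactSupport g :=
  h.mono' fun x hx => subset_closure (s := Function.support η) fun h' => hx (h0 x h')

theorem ci {F : Type*} [NormedAddCommGroup F] {η : E n → F} {g : E n → ℝ}
    (h : HasCompactSupport η) (h0 : ∀ x, η x = 0 → g x = 0) (hg : Continuous g) :
    Integrable g :=
  hg.integrable_of_hasCompactSupport (cs h h0)

theorem cvS {k : E n → ℝ} (hk : ContDiff ℝ ∞ k) (hc : HasCompactSupport k) {g : E n → ℝ}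
    (hg : Integrable g) : ContDiff ℝ ∞ (cv k g) ∧ ∀ i x, dd i (cv k g) x = cv (dd i k) g x := by
  have e : cv k g = MeasureTheory.convolution g k (ContinuousLinearMap.lsmul ℝ ℝ) volume := by
    funext x
    unfold cv MeasureTheory.convolution
    refine integral_congr_ae (Eventually.of_forall fun y => ?_)
    show k (x - y) * g y = g y * k (x - y)
    ring
  refine ⟨?_, ?_⟩
  · rw [e]
    exact hc.contDiff_convolution_right _ hg.locallyIntegrable hk
  · intro i x
    have hd := (hc.hasFDerivAt_convolution_right (ContinuousLinearMap.lsmul ℝ ℝ)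
      hg.locallyIntegrable (hk.of_le (by exact_mod_cast le_top)) x).fderiv
    have hcd : HasCompactSupport (fderiv ℝ k) := hc.fderiv ℝ
    unfold dd
    rw [e, hd, convolution_precompR_apply _ hg.locallyIntegrable hcd
      (hk.continuous_fderiv (by simp)) x (bv i)]
    unfold cv MeasureTheory.convolution
    refine integral_congr_ae (Eventually.of_forall fun y => ?_)
    show g y * (fderiv ℝ k (x - y) (bv i)) = fderiv ℝ k (x - y) (bv i) * g y
    ring

theorem far {x₀ x y : E n} {t R : ℝ} (htR : t ≤ R) (hx : x ∈ ball x₀ (2 * R))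
    (hy : y ∉ ball x₀ (3 * R)) : t ≤ ‖x - y‖ := by
  rw [mem_ball] at hx hy
  have := dist_triangle y x x₀
  rw [← dist_eq_norm, dist_comm]
  linarith

theorem cv_ind {k v : E n → ℝ} {x x₀ : E n} {t R : ℝ} (k0 : ∀ z, t ≤ ‖z‖ → k z = 0)
    (htR : t ≤ R) (hx : x ∈ ball x₀ (2 * R)) :
    cv k ((ball x₀ (3 * R)).indicator v) x = cv k v x := by
  unfold cv
  refine integral_congr_ae (Eventually.of_forall fun y => ?_)
  show k (x - y) * (ball x₀ (3 * R)).indicator v y = k (x - y) * v y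
  by_cases hy : y ∈ ball x₀ (3 * R)
  · rw [indicator_of_mem hy]
  · rw [k0 _ (far htR hx hy), zero_mul, zero_mul]

theorem csub {x₀ x : E n} {t R : ℝ} (htR : t ≤ R) (hx : x ∈ ball x₀ (2 * R)) :
    closedBall x t ⊆ ball x₀ (3 * R) := by
  intro y hy
  rw [mem_closedBall] at hy
  rw [mem_ball] at hx ⊢
  have := dist_triangle y x x₀
  linarith

theorem tst_k {k : E n → ℝ} {x x₀ : E n} {t R : ℝ} (kS : ContDiff ℝ ∞ k)
    (k0 : ∀ z, t ≤ ‖z‖ → k z = 0) (htR : t ≤ R) (hx : x ∈ ball x₀ (2 * R)) :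
    Tst (ball x₀ (3 * R)) (fun y => k (x - y)) := by
  have hsm : ContDiff ℝ ∞ (fun y : E n => x - y) := contDiff_const.sub contDiff_id
  have h1 : Function.support (fun y => k (x - y)) ⊆ closedBall x t := by
    intro y hy
    by_contra h
    apply hy
    rw [mem_closedBall, dist_comm, dist_eq_norm, not_le] at h
    exact k0 _ h.le
  exact ⟨kS.comp hsm, HasCompactSupport.of_support_subset_isCompact (isCompact_closedBall x t) h1,
    (closure_minimal h1 isClosed_closedBall).trans (csub htR hx)⟩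

theorem int_ker {k v : E n → ℝ} {x x₀ : E n} {t R : ℝ} (hk : Continuous k)
    (k0 : ∀ z, t ≤ ‖z‖ → k z = 0) (htR : t ≤ R) (hx : x ∈ ball x₀ (2 * R))
    (hv : IntegrableOn v (ball x₀ (3 * R))) : Integrable (fun y => k (x - y) * v y) := by
  have e : 2 * (3 / 2 * R) = 3 * R := by ring
  refine Pool.Agent.H13.RG6.int_ker (x₀ := x₀) (r := t) (R := 3 / 2 * R) hk k0 ?_ ?_
  · rw [e]
    exact csub htR hx
  · rw [e]
    exact hv

theorem grad_cv {k v : E n → ℝ} {D : E n → E n} {x x₀ : E n} {t R : ℝ} (kS : ContDiff ℝ ∞ k)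
    (k0 : ∀ z, t ≤ ‖z‖ → k z = 0) (htR : t ≤ R) (hx : x ∈ ball x₀ (2 * R))
    (hW : WGr (ball x₀ (3 * R)) v D) (i : Fin n) :
    cv (dd i k) v x = cv k (fun y => D y i) x := by
  have h := hW _ (tst_k kS k0 htR hx) i
  have h2 : ∫ y, v y * dd i (fun y => k (x - y)) y = -cv (dd i k) v x := by
    unfold cv
    rw [← integral_neg]
    refine integral_congr_ae (Eventually.of_forall fun y => ?_)
    show v y * dd i (fun y => k (x - y)) y = -(dd i k (x - y) * v y)
    rw [Pool.Agent.H13.RG6.dd_refl i k (kS.differentiable (by simp)) x y]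
    ring
  have h3 : ∫ y, D y i * k (x - y) = cv k (fun y => D y i) x := by
    unfold cv
    refine integral_congr_ae (Eventually.of_forall fun y => ?_)
    show D y i * k (x - y) = k (x - y) * D y i
    ring
  rw [h2, h3] at h
  linarith

theorem eq_cv {k : E n → ℝ} {u : E n → E m} {D : Fin m → E n → E n} {f : E n → E m}
    {x x₀ : E n} {t R : ℝ} (kS : ContDiff ℝ ∞ k) (k0 : ∀ z, t ≤ ‖z‖ → k z = 0)
    (kd0 : ∀ i z, t ≤ ‖z‖ → dd i k z = 0) (htR : t ≤ R) (hx : x ∈ ball x₀ (2 * R))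
    (hS : Sol (ball x₀ (3 * R)) u D f) (iD : ∀ a i, IntegrableOn (fun y => D a y i)
      (ball x₀ (3 * R))) (a : Fin m) :
    ∑ i, cv (dd i k) (fun y => D a y i) x = -cv k (fun y => f y a) x := by
  have h := hS.eq a _ (tst_k kS k0 htR hx)
  have h2 : ∫ y, ∑ i : Fin n, dd i (fun y => k (x - y)) y * D a y i =
      ∑ i, -cv (dd i k) (fun y => D a y i) x := by
    have e1 : ∀ i y, dd i (fun y => k (x - y)) y * D a y i = -(dd i k (x - y) * D a y i) := by
      intro i y
      rw [Pool.Agent.H13.RG6.dd_refl i k (kS.differentiable (by simp)) x y]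
      ring
    have e2 : ∀ i, Continuous (dd i k) := fun i =>
      (kS.continuous_fderiv (by simp)).clm_apply continuous_const
    simp only [e1]
    rw [integral_finsetSum]
    · refine Finset.sum_congr rfl fun i _ => ?_
      rw [integral_neg]
      rfl
    · intro i _
      exact (int_ker (e2 i) (kd0 i) htR hx (iD a i)).neg
  have h3 : ∫ y, k (x - y) * f y a = cv k (fun y => f y a) x := rfl
  rw [h2, h3, Finset.sum_neg_distrib] at h
  linarith

/-- pairing -/
theorem pair {k : E n → ℝ} {g : E n → E m} {G : E n → ℝ} {x x₀ : E n} {t R : ℝ}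
    (kC : Continuous k) (k0 : ∀ z, t ≤ ‖z‖ → k z = 0) (kp : ∀ z, 0 ≤ k z) (htR : t ≤ R)
    (hx : x ∈ ball x₀ (2 * R)) (hg : ∀ a, IntegrableOn (fun y => g y a) (ball x₀ (3 * R)))
    (hG : IntegrableOn G (ball x₀ (3 * R)))
    (hgG : ∀ᵐ y ∂(volume.restrict (ball x₀ (3 * R))), ‖g y‖ ≤ G y) (w : E m) :
    ∑ a, w a * cv k (fun y => g y a) x ≤ ‖w‖ * cv k G x := by
  have h1 : ∑ a, w a * cv k (fun y => g y a) x = ∫ y, ∑ a, w a * (k (x - y) * g y a) := by
    rw [integral_finsetSum]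
    · refine Finset.sum_congr rfl fun a _ => ?_
      rw [integral_const_mul]
      rfl
    · intro a _
      exact (int_ker kC k0 htR hx (hg a)).const_mul _
  have h2 : ‖w‖ * cv k G x = ∫ y, ‖w‖ * (k (x - y) * G y) := by
    rw [integral_const_mul]
    rfl
  rw [h1, h2]
  refine integral_mono_ae (integrable_finset_sum _ fun a _ =>
    (int_ker kC k0 htR hx (hg a)).const_mul _) ((int_ker kC k0 htR hx hG).const_mul _) ?_
  have h3 := (ae_restrict_iff' measurableSet_ball).1 hgG
  filter_upwards [h3] with y hy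
  by_cases hyB : y ∈ ball x₀ (3 * R)
  · have h4 : ∑ a, w a * (k (x - y) * g y a) = k (x - y) * ⟪w, g y⟫ := by
      rw [PiLp.inner_apply, Finset.mul_sum]
      refine Finset.sum_congr rfl fun a _ => ?_
      simp only [RCLike.inner_apply, conj_trivial]
      ring
    rw [h4]
    have h5 : ⟪w, g y⟫ ≤ ‖w‖ * G y :=
      (real_inner_le_norm w (g y)).trans (mul_le_mul_of_nonneg_left (hy hyB) (norm_nonneg _))
    calc k (x - y) * ⟪w, g y⟫ ≤ k (x - y) * (‖w‖ * G y) := mul_le_mul_of_nonneg_left h5 (kp _)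
      _ = ‖w‖ * (k (x - y) * G y) := by ring
  · simp only [k0 _ (far htR hx hyB), zero_mul, mul_zero, Finset.sum_const_zero, le_refl]

theorem fub {k η h : E n → ℝ} (kC : Continuous k) (kc : HasCompactSupport k)
    (kev : ∀ z, k (-z) = k z) (hη : Continuous η) (hηc : HasCompactSupport η)
    (hh : Integrable h) : ∫ x, η x * cv k h x = ∫ y, cv k η y * h y := by
  obtain ⟨C, hC⟩ := kc.exists_bound_of_continuous kC
  have hint : Integrable (Function.uncurry fun x y => k (x - y) * (η x * h y))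
      ((volume : Measure (E n)).prod volume) := by
    have h1 : Integrable (fun p : E n × E n => η p.1 * h p.2)
        ((volume : Measure (E n)).prod volume) :=
      (hη.integrable_of_hasCompactSupport hηc).mul_prod hh
    exact h1.bdd_mul (c := C)
      (kC.comp (continuous_fst.sub continuous_snd)).aestronglyMeasurable
      (Eventually.of_forall fun p => hC _)
  have h2 : ∫ x, η x * cv k h x = ∫ x, ∫ y, k (x - y) * (η x * h y) := by
    refine integral_congr_ae (Eventually.of_forall fun x => ?_)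
    show η x * ∫ y, k (x - y) * h y = ∫ y, k (x - y) * (η x * h y)
    rw [← integral_const_mul]
    refine integral_congr_ae (Eventually.of_forall fun y => ?_)
    show η x * (k (x - y) * h y) = k (x - y) * (η x * h y)
    ring
  rw [h2, integral_integral_swap hint]
  refine integral_congr_ae (Eventually.of_forall fun y => ?_)
  show ∫ x, k (x - y) * (η x * h y) = (∫ x, k (y - x) * η x) * h y
  rw [← integral_mul_const]
  refine integral_congr_ae (Eventually.of_forall fun x => ?_)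
  show k (x - y) * (η x * h y) = k (y - x) * η x * h y
  rw [← kev (x - y), neg_sub]
  ring

theorem dd_prod {η w : E n → ℝ} (hη : Differentiable ℝ η) (hw : Differentiable ℝ w) (c : ℝ)
    (i : Fin n) (x : E n) : dd i (fun x => η x * η x * (w x - c)) x =
      2 * η x * dd i η x * (w x - c) + η x ^ 2 * dd i w x := by
  have h1 : HasFDerivAt (fun x => η x * η x * (w x - c)) _ x :=
    ((hη x).hasFDerivAt.mul (hη x).hasFDerivAt).mul ((hw x).hasFDerivAt.sub_const c)
  unfold dd
  rw [h1.fderiv]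
  simp
  ring

theorem core {k : E n → ℝ} {x₀ : E n} {t R K o : ℝ} {c : E m} {η : E n → ℝ}
    {u : E n → E m} {D : Fin m → E n → E n} {f : E n → E m}
    (kS : ContDiff ℝ ∞ k) (k0 : ∀ z, t ≤ ‖z‖ → k z = 0)
    (kd0 : ∀ i z, t ≤ ‖z‖ → dd i k z = 0) (kp : ∀ z, 0 ≤ k z) (kev : ∀ z, k (-z) = k z)
    (k1 : ∫ z, k z = 1) (hR : 0 < R) (htR : t ≤ R) (hK0 : 0 ≤ K)
    (hS : Sol (ball x₀ (3 * R)) u D f)
    (hf : ∀ᵐ x ∂(volume.restrict (ball x₀ (3 * R))), ‖f x‖ ≤ K * ∑ a, ‖D a x‖ ^ 2)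
    (hu : ∀ x ∈ ball x₀ (3 * R), ‖u x - c‖ ≤ o) (hη : Tst (ball x₀ (2 * R)) η) :
    ∫ x, η x ^ 2 * ∑ a, ∑ i, cv k (fun y => D a y i) x ^ 2 ≤
      2 * K * o * (∫ x, cv k (fun y => η y ^ 2) x * ∑ a, ‖D a x‖ ^ 2) +
        4 * o ^ 2 * ∫ x, ∑ i, dd i η x ^ 2 := by
  have kC : Continuous k := kS.continuous
  have kc : HasCompactSupport k := by
    refine HasCompactSupport.of_support_subset_isCompact (isCompact_closedBall 0 t) fun z hz => ?_
    rw [mem_closedBall_zero_iff]
    by_contra h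
    exact hz (k0 z (not_le.1 h).le)
  have ho : 0 ≤ o := (norm_nonneg _).trans (hu x₀ (mem_ball_self (by positivity)))
  haveI : IsFiniteMeasure (volume.restrict (ball x₀ (3 * R))) :=
    ⟨by simpa using measure_ball_lt_top⟩
  -- integrability
  have iD : ∀ a i, IntegrableOn (fun y => D a y i) (ball x₀ (3 * R)) := fun a i =>
    ContinuousLinearMap.integrable_comp (EuclideanSpace.proj (𝕜 := ℝ) i)
      ((hS.iD a).integrable one_le_two)
  have iH : IntegrableOn (fun y => ∑ a, ‖D a y‖ ^ 2) (ball x₀ (3 * R)) :=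
    integrable_finset_sum _ fun a _ => (memLp_two_iff_integrable_sq_norm (hS.iD a).1).1 (hS.iD a)
  have xU : ∀ a, Integrable ((ball x₀ (3 * R)).indicator fun y => u y a) := fun a =>
    (integrable_indicator_iff measurableSet_ball).2 (hS.iu a)
  have xP : ∀ a i, Integrable ((ball x₀ (3 * R)).indicator fun y => D a y i) := fun a i =>
    (integrable_indicator_iff measurableSet_ball).2 (iD a i)
  have xH : Integrable ((ball x₀ (3 * R)).indicator fun y => ∑ a, ‖D a y‖ ^ 2) :=
    (integrable_indicator_iff measurableSet_ball).2 iH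
  -- the mollified functions
  obtain ⟨Ut, hUt⟩ : ∃ Ut : Fin m → E n → ℝ,
      Ut = fun a => cv k ((ball x₀ (3 * R)).indicator fun y => u y a) := ⟨_, rfl⟩
  obtain ⟨Pt, hPt⟩ : ∃ Pt : Fin m → Fin n → E n → ℝ,
      Pt = fun a i => cv k ((ball x₀ (3 * R)).indicator fun y => D a y i) := ⟨_, rfl⟩
  obtain ⟨Ht, hHt⟩ : ∃ Ht : E n → ℝ,
      Ht = cv k ((ball x₀ (3 * R)).indicator fun y => ∑ a, ‖D a y‖ ^ 2) := ⟨_, rfl⟩
  obtain ⟨F, hF⟩ : ∃ F : Fin m → E n → ℝ, F = fun a => cv k (fun y => f y a) := ⟨_, rfl⟩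
  have sU : ∀ a, ContDiff ℝ ∞ (Ut a) := fun a => by rw [hUt]; exact (cvS kS kc (xU a)).1
  have sP : ∀ a i, ContDiff ℝ ∞ (Pt a i) := fun a i => by rw [hPt]; exact (cvS kS kc (xP a i)).1
  have sH : ContDiff ℝ ∞ Ht := by rw [hHt]; exact (cvS kS kc xH).1
  -- local identities
  have vU : ∀ x ∈ ball x₀ (2 * R), ∀ a, Ut a x = cv k (fun y => u y a) x := by
    intro x hx a
    rw [hUt]
    exact cv_ind k0 htR hx
  have vP : ∀ x ∈ ball x₀ (2 * R), ∀ a i, Pt a i x = cv k (fun y => D a y i) x := by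
    intro x hx a i
    rw [hPt]
    exact cv_ind k0 htR hx
  have vH : ∀ x ∈ ball x₀ (2 * R), Ht x = cv k (fun y => ∑ a, ‖D a y‖ ^ 2) x := by
    intro x hx
    rw [hHt]
    exact cv_ind k0 htR hx
  have dU : ∀ x ∈ ball x₀ (2 * R), ∀ a i, dd i (Ut a) x = Pt a i x := by
    intro x hx a i
    rw [vP x hx, hUt]
    show dd i (cv k ((ball x₀ (3 * R)).indicator fun y => u y a)) x = _
    rw [(cvS kS kc (xU a)).2 i x, cv_ind (kd0 i) htR hx]
    exact grad_cv kS k0 htR hx (hS.gr a) i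
  have dP : ∀ x ∈ ball x₀ (2 * R), ∀ a, ∑ i, dd i (Pt a i) x = -F a x := by
    intro x hx a
    rw [hF]
    show _ = -cv k (fun y => f y a) x
    rw [← eq_cv kS k0 kd0 htR hx hS iD a]
    refine Finset.sum_congr rfl fun i _ => ?_
    rw [hPt]
    show dd i (cv k ((ball x₀ (3 * R)).indicator fun y => D a y i)) x = _
    rw [(cvS kS kc (xP a i)).2 i x, cv_ind (kd0 i) htR hx]
  -- the vector
  have k1x : ∀ x, ∫ y, k (x - y) = 1 := by
    intro x
    rw [integral_sub_left_eq_self k volume x, k1]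
  have bw : ∀ x ∈ ball x₀ (2 * R),
      ‖(WithLp.toLp 2 fun a => Ut a x - c a : E m)‖ ≤ o := by
    intro x hx
    set w : E m := WithLp.toLp 2 fun a => Ut a x - c a with hw
    have hwa : ∀ a, w a = Ut a x - c a := fun a => rfl
    have h1 := pair (g := fun y => u y - c) (G := fun _ => o) kC k0 kp htR hx
      (fun a => by
        show IntegrableOn (fun y => u y a - c a) (ball x₀ (3 * R))
        exact (hS.iu a).sub (integrable_const _))
      (integrable_const _)
      ((ae_restrict_iff' measurableSet_ball).2 (Eventually.of_forall fun y hy => hu y hy)) w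
    have h2 : ∀ a, cv k (fun y => (u y - c) a) x = w a := by
      intro a
      rw [hwa, vU x hx]
      show ∫ y, k (x - y) * (u y a - c a) = (∫ y, k (x - y) * u y a) - c a
      have e1 : ∀ y, k (x - y) * (u y a - c a) = k (x - y) * u y a - k (x - y) * c a :=
        fun y => by ring
      simp only [e1]
      rw [integral_sub (int_ker kC k0 htR hx (hS.iu a))
        (int_ker kC k0 htR hx (integrable_const _)), integral_mul_const, k1x, one_mul]
    have h3 : cv k (fun _ => o) x = o := by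
      show ∫ y, k (x - y) * o = o
      rw [integral_mul_const, k1x, one_mul]
    rw [h3] at h1
    simp only [h2] at h1
    have h4 : ‖w‖ ^ 2 = ∑ a, w a * w a := by
      rw [EuclideanSpace.norm_sq_eq]
      refine Finset.sum_congr rfl fun a _ => ?_
      rw [Real.norm_eq_abs, sq_abs, sq]
    rw [← h4] at h1
    by_contra hcon
    push Not at hcon
    nlinarith [norm_nonneg w]
  have bw2 : ∀ x ∈ ball x₀ (2 * R), ∑ a, (Ut a x - c a) ^ 2 ≤ o ^ 2 := by
    intro x hx
    have h1 := bw x hx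
    have h2 : ‖(WithLp.toLp 2 fun a => Ut a x - c a : E m)‖ ^ 2 = ∑ a, (Ut a x - c a) ^ 2 := by
      rw [EuclideanSpace.norm_sq_eq]
      refine Finset.sum_congr rfl fun a _ => ?_
      rw [Real.norm_eq_abs, sq_abs]
    rw [← h2]
    exact pow_le_pow_left₀ (norm_nonneg _) h1 2
  have bF : ∀ x ∈ ball x₀ (2 * R), ∑ a, (Ut a x - c a) * F a x ≤ o * K * Ht x := by
    intro x hx
    have h1 := pair (g := f) (G := fun y => K * ∑ a, ‖D a y‖ ^ 2) kC k0 kp htR hx hS.iF
      (iH.const_mul _) hf (WithLp.toLp 2 fun a => Ut a x - c a)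
    have h2 : cv k (fun y => K * ∑ a, ‖D a y‖ ^ 2) x = K * Ht x := by
      rw [vH x hx]
      unfold cv
      rw [← integral_const_mul]
      refine integral_congr_ae (Eventually.of_forall fun y => ?_)
      show k (x - y) * (K * ∑ a, ‖D a y‖ ^ 2) = K * (k (x - y) * ∑ a, ‖D a y‖ ^ 2)
      ring
    have h3 : 0 ≤ Ht x := by
      rw [vH x hx]
      exact integral_nonneg fun y => mul_nonneg (kp _) (Finset.sum_nonneg fun a _ => by positivity)
    rw [h2] at h1
    have h4 : ∑ a, (Ut a x - c a) * F a x =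
        ∑ a, (WithLp.toLp 2 fun a => Ut a x - c a : E m) a * cv k (fun y => f y a) x := by
      rw [hF]
    rw [h4]
    refine h1.trans ?_
    calc _ ≤ o * (K * Ht x) := mul_le_mul_of_nonneg_right (bw x hx) (mul_nonneg hK0 h3)
      _ = o * K * Ht x := by ring
  -- continuity
  have ηC : Continuous η := hη.1.continuous
  have ηD : Differentiable ℝ η := hη.1.differentiable (by simp)
  have dC : ∀ {g : E n → ℝ}, ContDiff ℝ ∞ g → ∀ i, Continuous (dd i g) := fun hg i =>
    (hg.continuous_fderiv (by simp)).clm_apply continuous_const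
  have ηz : ∀ x, η x ≠ 0 → x ∈ ball x₀ (2 * R) := fun x hx => hη.2.2 (subset_closure hx)
  -- the test functions
  obtain ⟨Ψ, hΨ⟩ : ∃ Ψ : Fin m → E n → ℝ, Ψ = fun a x => η x * η x * (Ut a x - c a) := ⟨_, rfl⟩
  have Ψv : ∀ a x, Ψ a x = η x * η x * (Ut a x - c a) := fun a x => by rw [hΨ]
  have sΨ : ∀ a, ContDiff ℝ ∞ (Ψ a) := fun a => by
    rw [hΨ]
    exact (hη.1.mul hη.1).mul ((sU a).sub contDiff_const)
  have dΨ : ∀ a i x, dd i (Ψ a) x = 2 * η x * dd i η x * (Ut a x - c a) +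
      η x ^ 2 * Pt a i x := by
    intro a i x
    rw [hΨ]
    show dd i (fun x => η x * η x * (Ut a x - c a)) x = _
    rw [dd_prod ηD ((sU a).differentiable (by simp)) (c a) i x]
    by_cases hx : η x = 0
    · rw [hx]
      ring
    · rw [dU x (ηz x hx)]
  -- the divergence
  have iZ1 : ∀ a i, Integrable fun x => Ψ a x * dd i (Pt a i) x := fun a i =>
    ci hη.2.1 (fun x hx => by rw [Ψv, hx]; ring) ((sΨ a).continuous.mul (dC (sP a i) i))
  have iZ2 : ∀ a i, Integrable fun x => dd i (Ψ a) x * Pt a i x := fun a i =>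
    ci hη.2.1 (fun x hx => by rw [dΨ, hx]; ring) ((dC (sΨ a) i).mul (sP a i).continuous)
  have iZ3 : ∀ a i, Integrable fun x => Ψ a x * Pt a i x := fun a i =>
    ci hη.2.1 (fun x hx => by rw [Ψv, hx]; ring) ((sΨ a).continuous.mul (sP a i).continuous)
  have iZ4 : ∀ a i, Integrable fun x => Ψ a x * dd i (Pt a i) x + dd i (Ψ a) x * Pt a i x :=
    fun a i => (iZ1 a i).add (iZ2 a i)
  have Z0 : ∫ x, ∑ a, ∑ i, (Ψ a x * dd i (Pt a i) x + dd i (Ψ a) x * Pt a i x) = 0 := by
    rw [integral_finsetSum _ fun a _ => integrable_finset_sum _ fun i _ => iZ4 a i]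
    refine Finset.sum_eq_zero fun a _ => ?_
    rw [integral_finsetSum _ fun i _ => iZ4 a i]
    refine Finset.sum_eq_zero fun i _ => ?_
    rw [integral_add (iZ1 a i) (iZ2 a i)]
    have h1 := integral_mul_fderiv_eq_neg_fderiv_mul_of_integrable (μ := (volume : Measure (E n)))
      (f := Ψ a) (g := Pt a i) (v := bv i) (iZ2 a i) (iZ1 a i) (iZ3 a i)
      (fun x _ => (sΨ a).differentiable (by simp) x)
      (fun x _ => (sP a i).differentiable (by simp) x)
    have h2 : ∫ x, Ψ a x * dd i (Pt a i) x = -∫ x, dd i (Ψ a) x * Pt a i x := h1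
    rw [h2]
    ring
  have iZ : Integrable fun x => ∑ a, ∑ i, (Ψ a x * dd i (Pt a i) x + dd i (Ψ a) x * Pt a i x) :=
    integrable_finset_sum _ fun a _ => integrable_finset_sum _ fun i _ => iZ4 a i
  -- the pointwise inequality
  have ptw : ∀ x, 1 / 2 * (η x ^ 2 * ∑ a, ∑ i, Pt a i x ^ 2) ≤
      ∑ a, ∑ i, (Ψ a x * dd i (Pt a i) x + dd i (Ψ a) x * Pt a i x) +
        o * K * (η x ^ 2 * Ht x) + 2 * o ^ 2 * ∑ i, dd i η x ^ 2 := by
    intro x
    by_cases hx : η x = 0
    · have h1 : ∑ a, ∑ i, (Ψ a x * dd i (Pt a i) x + dd i (Ψ a) x * Pt a i x) = 0 := by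
        refine Finset.sum_eq_zero fun a _ => Finset.sum_eq_zero fun i _ => ?_
        rw [Ψv, dΨ, hx]
        ring
      rw [h1, hx]
      have h2 : 0 ≤ ∑ i, dd i η x ^ 2 := Finset.sum_nonneg fun i _ => sq_nonneg _
      have h3 : 0 ≤ 2 * o ^ 2 * ∑ i, dd i η x ^ 2 := by positivity
      simpa using h3
    · have hxB := ηz x hx
      have e1 : ∑ a, ∑ i, (Ψ a x * dd i (Pt a i) x + dd i (Ψ a) x * Pt a i x) =
          -(η x ^ 2 * ∑ a, (Ut a x - c a) * F a x) + ∑ a, ∑ i,
            (2 * η x * dd i η x * (Ut a x - c a) * Pt a i x + η x ^ 2 * Pt a i x ^ 2) := by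
        rw [Finset.mul_sum, ← Finset.sum_neg_distrib, ← Finset.sum_add_distrib]
        refine Finset.sum_congr rfl fun a _ => ?_
        rw [Finset.sum_add_distrib, ← Finset.mul_sum, dP x hxB, Ψv]
        congr 1
        · ring
        · refine Finset.sum_congr rfl fun i _ => ?_
          rw [dΨ]
          ring
      have e2 : ∑ a, ∑ i, (1 / 2 * (η x ^ 2 * Pt a i x ^ 2) -
          2 * (dd i η x ^ 2 * (Ut a x - c a) ^ 2)) ≤ ∑ a, ∑ i,
            (2 * η x * dd i η x * (Ut a x - c a) * Pt a i x + η x ^ 2 * Pt a i x ^ 2) := by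
        refine Finset.sum_le_sum fun a _ => Finset.sum_le_sum fun i _ => ?_
        nlinarith [sq_nonneg (η x * Pt a i x + 2 * dd i η x * (Ut a x - c a))]
      have e3 : ∑ a, ∑ i, (1 / 2 * (η x ^ 2 * Pt a i x ^ 2) -
          2 * (dd i η x ^ 2 * (Ut a x - c a) ^ 2)) =
          1 / 2 * (η x ^ 2 * ∑ a, ∑ i, Pt a i x ^ 2) -
            2 * ((∑ i, dd i η x ^ 2) * ∑ a, (Ut a x - c a) ^ 2) := by
        simp only [Finset.sum_sub_distrib, ← Finset.mul_sum, ← Finset.sum_mul]
      have e4 : (∑ i, dd i η x ^ 2) * ∑ a, (Ut a x - c a) ^ 2 ≤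
          (∑ i, dd i η x ^ 2) * o ^ 2 :=
        mul_le_mul_of_nonneg_left (bw2 x hxB) (Finset.sum_nonneg fun i _ => sq_nonneg _)
      have e5 : η x ^ 2 * ∑ a, (Ut a x - c a) * F a x ≤ η x ^ 2 * (o * K * Ht x) :=
        mul_le_mul_of_nonneg_left (bF x hxB) (sq_nonneg _)
      rw [e1]
      linarith
  -- integration
  have iJ : Integrable fun x => η x ^ 2 * ∑ a, ∑ i, Pt a i x ^ 2 :=
    ci hη.2.1 (fun x hx => by rw [hx]; ring) ((ηC.pow 2).mul (continuous_finset_sum _ fun a _ =>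
      continuous_finset_sum _ fun i _ => (sP a i).continuous.pow 2))
  have iHt : Integrable fun x => η x ^ 2 * Ht x :=
    ci hη.2.1 (fun x hx => by rw [hx]; ring) ((ηC.pow 2).mul sH.continuous)
  have iE : Integrable fun x => ∑ i, dd i η x ^ 2 :=
    ci (hη.2.1.fderiv ℝ) (fun x hx => by
      refine Finset.sum_eq_zero fun i _ => ?_
      unfold dd
      rw [hx]
      simp) (continuous_finset_sum _ fun i _ => (dC hη.1 i).pow 2)
  have main : ∫ x, 1 / 2 * (η x ^ 2 * ∑ a, ∑ i, Pt a i x ^ 2) ≤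
      ∫ x, (∑ a, ∑ i, (Ψ a x * dd i (Pt a i) x + dd i (Ψ a) x * Pt a i x) +
        o * K * (η x ^ 2 * Ht x) + 2 * o ^ 2 * ∑ i, dd i η x ^ 2) :=
    integral_mono (iJ.const_mul _) ((iZ.add (iHt.const_mul _)).add (iE.const_mul _)) ptw
  have iY : Integrable fun x => ∑ a, ∑ i, (Ψ a x * dd i (Pt a i) x + dd i (Ψ a) x * Pt a i x) +
      o * K * (η x ^ 2 * Ht x) := iZ.add (iHt.const_mul _)
  rw [integral_const_mul, integral_add iY (iE.const_mul _),
    integral_add iZ (iHt.const_mul _), Z0, integral_const_mul, integral_const_mul] at main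
  -- back to the original functions
  have j1 : ∫ x, η x ^ 2 * ∑ a, ∑ i, cv k (fun y => D a y i) x ^ 2 =
      ∫ x, η x ^ 2 * ∑ a, ∑ i, Pt a i x ^ 2 := by
    refine integral_congr_ae (Eventually.of_forall fun x => ?_)
    show η x ^ 2 * ∑ a, ∑ i, cv k (fun y => D a y i) x ^ 2 = η x ^ 2 * ∑ a, ∑ i, Pt a i x ^ 2
    by_cases hx : η x = 0
    · rw [hx]
      ring
    · simp only [vP x (ηz x hx)]
  have j2 : ∫ x, η x ^ 2 * Ht x =
      ∫ x, cv k (fun y => η y ^ 2) x * ∑ a, ‖D a x‖ ^ 2 := by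
    rw [hHt, fub (η := fun x => η x ^ 2) kC kc kev (ηC.pow 2)
      (cs hη.2.1 (fun x hx => by rw [hx]; ring)) xH]
    refine integral_congr_ae (Eventually.of_forall fun x => ?_)
    show cv k (fun y => η y ^ 2) x * (ball x₀ (3 * R)).indicator
      (fun y => ∑ a, ‖D a y‖ ^ 2) x = cv k (fun y => η y ^ 2) x * ∑ a, ‖D a x‖ ^ 2
    by_cases hx : x ∈ ball x₀ (3 * R)
    · rw [indicator_of_mem hx]
    · have h1 : cv k (fun y => η y ^ 2) x = 0 := by
        unfold cv
        refine integral_eq_zero_of_ae (Eventually.of_forall fun y => ?_)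
        show k (x - y) * η y ^ 2 = 0
        by_cases hy : η y = 0
        · rw [hy]
          ring
        · have h2 := far htR (ηz y hy) hx
          rw [← kev, neg_sub, k0 _ h2, zero_mul]
      rw [h1, zero_mul, zero_mul]
  rw [j1, ← j2]
  linarith

/-- CG1: the smooth Caccioppoli inequality for mollified solutions (the statement `T_CG1` with the
intended parentheses) -/
def T_CG1p : Prop := ∀ (n m : ℕ) (φ ζ : E n → ℝ) (u : E n → E m) (D : Fin m → E n → E n)
  (f : E n → E m) (x₀ : E n) (R K o t : ℝ) (c : E m) (η : E n → ℝ), IsKer φ ζ → 0 < R →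
  0 < t → t ≤ R → 0 ≤ K → Sol (ball x₀ (3 * R)) u D f →
  (∀ᵐ x ∂(volume.restrict (ball x₀ (3 * R))), ‖f x‖ ≤ K * ∑ a, ‖D a x‖ ^ 2) →
  (∀ x ∈ ball x₀ (3 * R), ‖u x - c‖ ≤ o) → Tst (ball x₀ (2 * R)) η → (∀ x, 0 ≤ η x) →
  ∫ x, η x ^ 2 * ∑ a, ∑ i, cv (dil φ t) (fun y => D a y i) x ^ 2 ≤
    2 * K * o * (∫ x, cv (dil φ t) (fun y => η y ^ 2) x * ∑ a, ‖D a x‖ ^ 2) +
      4 * o ^ 2 * ∫ x, ∑ i, dd i η x ^ 2

theorem pf_CG1p (hDIL : T_DIL) : T_CG1p := by
  intro n m φ ζ u D f x₀ R K o t c η hK hR ht htR hK0 hS hf hu hη _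
  obtain ⟨kS, k0, kd, k1, kd'⟩ := hDIL n φ t ht hK.sφ hK.zφ
  refine core kS k0 ?_ ?_ ?_ (k1.trans hK.one) hR htR hK0 hS hf hu hη
  · intro i z hz
    obtain ⟨c1, c2, -⟩ := kd' i
    obtain ⟨-, f2, -, -, -⟩ := hDIL n (dd i φ) t ht c1 c2
    rw [kd i]
    show t⁻¹ * dil (dd i φ) t z = 0
    rw [f2 z hz, mul_zero]
  · intro z
    exact mul_nonneg (by positivity) (hK.pos _)
  · intro z
    unfold dil
    rw [smul_neg, hK.even]

end

end Pool.Agent.H4.RG6
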